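import Mathlib

set_option autoImplicit false

namespace Pool.Agent.Results.MP_2093e0_al.Yes

open Polynomial

universe u

/-- `a` is strongly nil-clean -/
def SNC {R : Type u} [Ring R] (a : R) : Prop :=
  ∃ e b : R, e * e = e ∧ IsNilpotent b ∧ e * b = b * e ∧ a = e + b

/-- strongly weakly nil-clean ring -/
def SWNC (R : Type u) [Ring R] : Prop := ∀ a : R, SNC a ∨ SNC (-a)

/-- weakly UU ring: `U(R) = Nil(R) ± 1` -/
def WUU (R : Type u) [Ring R] : Prop :=
  ∀ x : R, IsUnit x ↔ ∃ n, IsNilpotent n ∧ (x = n + 1 ∨ x = n - 1)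

/-- semi-potent ring; `Submodule Rᵐᵒᵖ R` are the right ideals -/
def SemiPotent (R : Type u) [Ring R] : Prop :=
  ∀ I : Submodule Rᵐᵒᵖ R, ¬ (∀ x ∈ I, x ∈ Ring.jacobson R) → ∃ e ∈ I, e ≠ 0 ∧ e * e = e

variable {R : Type u} [Ring R]

lemma unitJ {j : R} (h : j ∈ Ring.jacobson R) : IsUnit (1 + j) := by
  have k : ∀ j ∈ Ring.jacobson R, ∃ z, z * (1 + j) = 1 := fun j h => by
    rw [← Ideal.jacobson_bot, Ideal.mem_jacobson_iff] at h
    obtain ⟨z, hz⟩ := h 1
    rw [Ideal.mem_bot, sub_eq_zero] at hz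
    exact ⟨z, by rw [mul_one] at hz; rw [mul_add, mul_one, add_comm, hz]⟩
  obtain ⟨z, hz⟩ := k j h
  obtain ⟨w, hw⟩ := k (-z * j) (Ideal.mul_mem_left _ _ h)
  have e : 1 + -z * j = z := by rw [← hz]; nth_rewrite 3 [← mul_one z]; noncomm_ring
  rw [e] at hw
  have : w = 1 + j := by rw [← mul_one w, ← hz, ← mul_assoc, hw, one_mul, hz]
  exact ⟨⟨1 + j, z, this ▸ hw, hz⟩, rfl⟩

lemma snc {a : R} (h : IsNilpotent (a * a - a)) : SNC a := by
  obtain ⟨n, hn⟩ := h.neg
  have hn' : (a - a ^ 2) ^ (n + 1) = 0 := by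
    rw [pow_succ, sq, ← neg_sub, hn, zero_mul]
  have he := isIdempotentElem_one_sub_one_sub_pow_pow a _ hn'
  obtain ⟨r, hr⟩ : (X - C 0) * (X - C 1) ∣ (X - (1 - (1 - X ^ (n + 1)) ^ (n + 1)) : ℤ[X]) :=
    IsCoprime.mul_dvd ⟨1, -1, by simp⟩ (by rw [dvd_iff_isRoot]; simp)
      (by rw [dvd_iff_isRoot]; simp)
  have e := congrArg (aeval a) hr
  have c := congrArg (aeval a) (mul_comm ((X - C 0) * (X - C 1) : ℤ[X]) r)
  have c2 := congrArg (aeval a) (mul_comm (1 - (1 - X ^ (n + 1)) ^ (n + 1) : ℤ[X]) X)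
  simp only [map_sub, map_mul, map_pow, aeval_X, map_one, map_zero, sub_zero] at e c c2
  refine ⟨_, a - _, he, ?_, ?_, (add_sub_cancel _ _).symm⟩
  · rw [e]
    exact Commute.isNilpotent_mul_right c (by rwa [mul_sub, mul_one])
  · rw [mul_sub (1 - _), c2, sub_mul a]

lemma nil0 {w v h : R} (hw : IsNilpotent w) (e : w * v = h) (e2 : h * v = v) : h = 0 := by
  obtain ⟨n, hn⟩ := hw
  have : ∀ m, w ^ (m + 1) * v ^ (m + 1) = h := fun m => by
    induction m with
    | zero => simpa
    | succ m ih => rw [pow_succ' w, pow_succ v, mul_assoc, ← mul_assoc _ _ v, ih, e2, e]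
  rw [← this n, pow_succ w, hn]; simp

lemma core (h : ∀ a : R, a ≠ 0 → ∃ r, a * r ≠ 0 ∧ a * r * (a * r) = a * r)
    (k : ∀ x y : R, x * y = 1 → y * x = 1 → IsNilpotent (x - 1) ∨ IsNilpotent (x + 1)) (a : R) :
    a * a - a = 0 ∨ a * a + a = 0 := by
  have red : ∀ a : R, a * a = 0 → a = 0 := fun a ha => by
    by_contra hne
    obtain ⟨r, h0, hr⟩ := h a hne
    obtain ⟨x, hx⟩ : ∃ x, x = a * r * a := ⟨_, rfl⟩
    obtain ⟨y, hy⟩ : ∃ y, y = (1 - a * r) * r * (a * r) := ⟨_, rfl⟩
    have ha' : ∀ z, a * (a * z) = 0 := fun z => by rw [← mul_assoc, ha, zero_mul]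
    have hr' : ∀ z, a * (r * (a * (r * z))) = a * (r * z) := fun z => by
      simpa [mul_assoc] using congrArg (· * z) hr
    have hr2 : a * (r * (a * r)) = a * r := by simpa [mul_assoc] using hr
    have xy : x * y = a * r := by simp [hx, hy, mul_sub, sub_mul, mul_assoc, ha', hr', hr2]
    have xx : x * x = 0 := by simp [hx, mul_assoc, ha']
    have yy : y * y = 0 := by simp [hy, mul_sub, sub_mul, mul_assoc, hr']
    have a1 : x * (y * x) = x := by rw [← mul_assoc, xy, hx]; simp [mul_assoc, hr']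
    have a2 : y * (x * y) = y := by rw [xy, hy]; simp [mul_assoc, hr2]
    have b1 : ∀ z, x * (x * z) = 0 := fun z => by rw [← mul_assoc, xx, zero_mul]
    have b2 : ∀ z, y * (y * z) = 0 := fun z => by rw [← mul_assoc, yy, zero_mul]
    have b3 : ∀ z, x * (y * (x * z)) = x * z := fun z => by
      rw [← mul_assoc y, ← mul_assoc, a1]
    have b4 : ∀ z, y * (x * (y * z)) = y * z := fun z => by
      rw [← mul_assoc x, ← mul_assoc, a2]
    have : x * y + y * x = 0 := by
      refine (k (1 + x + y - x * y) (1 + x + y - y * x - x * y - x * y) ?_ ?_).elim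
        (fun c => ?_) fun c => ?_
      rotate_left 2
      · refine nil0 c (v := x + y + y * x) ?_ ?_ <;>
          simp only [mul_add, add_mul, mul_sub, sub_mul, mul_assoc, xx, yy, a1, a2, b1, b2, b3, b4,
            mul_one, one_mul, mul_zero] <;> abel
      · refine nil0 c (v := x * y + x * y - x - y + y * x) ?_ ?_ <;>
          simp only [mul_add, add_mul, mul_sub, sub_mul, mul_assoc, xx, yy, a1, a2, b1, b2, b3, b4,
            mul_one, one_mul, mul_zero] <;> abel
      all_goals
        simp only [mul_add, add_mul, mul_sub, sub_mul, mul_assoc, xx, yy, a1, a2, b1, b2, b3, b4,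
          mul_one, one_mul, mul_zero]
        abel
    have h2 := congrArg (x * ·) this
    simp only [mul_add, b1, a1, zero_add, mul_zero] at h2
    exact h0 (by rw [← xy, h2, zero_mul])
  have : IsReduced R := (isReduced_iff_pow_one_lt 2 one_lt_two).2 fun x hx => red x (by rwa [← sq])
  have cen : ∀ e : R, e * e = e → ∀ x, e * x = x * e := fun e he x => by
    have he' : ∀ z, e * (e * z) = e * z := fun z => by rw [← mul_assoc, he]
    have h1 := red (e * x - e * x * e) (by simp [mul_sub, sub_mul, mul_assoc, he', he])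
    have h2 := red (x * e - e * x * e) (by simp [mul_sub, sub_mul, mul_assoc, he', he])
    rw [sub_eq_zero] at h1 h2
    rw [h1, h2]
  have key : ∀ e s : R, e * e = e → e = a * s → e * a = e ∨ (e * a = -e ∧ (1 - e) + (1 - e) = 0) := by
    intro e s he hs
    have he' : ∀ z, e * (e * z) = e * z := fun z => by rw [← mul_assoc, he]
    have h1 : (e * a + (1 - e)) * (e * s + (1 - e)) = 1 := by
      simp only [mul_add, add_mul, mul_sub, sub_mul, mul_assoc, mul_one, one_mul, he', he,
        ← cen e he a]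
      rw [← mul_assoc a, ← cen e he a, mul_assoc, ← hs, he', he]; abel
    have h2 : (e * s + (1 - e)) * (e * a + (1 - e)) = 1 := by
      generalize e * s + (1 - e) = v at h1
      generalize e * a + (1 - e) = w at h1
      have := cen (v * w) (by rw [mul_assoc, ← mul_assoc w, h1, one_mul]) w
      calc v * w = v * w * w * v := by rw [mul_assoc (v * w), h1, mul_one]
        _ = 1 := by rw [this, ← mul_assoc w, h1, one_mul, h1]
    rcases k _ _ h1 h2 with c | c
    · left
      rw [← sub_eq_zero, ← c.eq_zero]; abel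
    · right
      have c1 := c.eq_zero
      have c2 := congrArg (e * ·) c1
      simp only [mul_add, mul_sub, he', he, mul_one, sub_self, add_zero, mul_zero] at c2
      rw [add_eq_zero_iff_eq_neg] at c2
      exact ⟨c2, by rw [← c1, c2]; abel⟩
  by_contra hc
  push Not at hc
  obtain ⟨r, h0, hr⟩ := h _ hc.1
  obtain ⟨s, h1, hs⟩ := h _ hc.2
  generalize he : (a * a - a) * r = e at h0 hr
  generalize hf : (a * a + a) * s = f at h1 hs
  rcases key e ((a - 1) * r) hr (by rw [← he]; noncomm_ring) with c | c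
  · apply h0
    rw [← hr]; nth_rewrite 2 [← he]
    rw [← mul_assoc, mul_sub, ← mul_assoc, c, c]; simp
  rcases key f ((a + 1) * s) hs (by rw [← hf]; noncomm_ring) with d | d
  · have e1 : e * f + e * f = 0 := by
      nth_rewrite 1 [← d]
      rw [← mul_assoc, cen e hr f, mul_assoc, c.1]; simp
    have e2 : f + f = 0 := by
      have := congrArg (· * f) c.2
      simp only [add_mul, sub_mul, one_mul, zero_mul] at this
      rw [← sub_zero (f + f), ← e1]
      exact Eq.trans (by abel) (this.trans e1.symm)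
    apply h1
    rw [← hs]; nth_rewrite 2 [← hf]
    rw [← mul_assoc, mul_add, ← mul_assoc, d, d, e2, zero_mul]
  · apply h1
    rw [← hs]; nth_rewrite 2 [← hf]
    rw [← mul_assoc, mul_add, ← mul_assoc, d.1, neg_mul, d.1]; simp

lemma idem {a : R} (h : SNC a) : IsNilpotent a ∨
    ∃ e r : R, e ≠ 0 ∧ e * e = e ∧ e = a * r ∧ IsNilpotent (a - e) ∧ e * a = a * e := by
  obtain ⟨e, b, he, hb, c, rfl⟩ := h
  by_cases h0 : e = 0
  · left; simpa [h0]
  obtain ⟨u, hu⟩ := hb.isUnit_one_add
  refine .inr ⟨e, e * ↑u⁻¹, h0, he, ?_, by simpa, by rw [mul_add, add_mul, c]⟩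
  rw [← mul_assoc, Units.eq_mul_inv_iff_mul_eq, hu, mul_add, add_mul, he, c, mul_one]

theorem result (R : Type u) [Ring R] : SWNC R ↔ SemiPotent R ∧ WUU R := by
  constructor
  · intro h
    refine ⟨fun I hI => ?_, fun x => ⟨fun hx => ?_, ?_⟩⟩
    · by_contra hc
      have nil : ∀ x ∈ I, IsNilpotent x := fun x hx => by
        rcases h x with c | c <;> rcases idem c with d | ⟨e, r, h0, he, d, -⟩
        · exact d
        · exact (hc ⟨e, d ▸ I.smul_mem (MulOpposite.op r) hx, h0, he⟩).elim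
        · simpa using d
        · exact (hc ⟨e, d ▸ I.smul_mem (MulOpposite.op r) (neg_mem hx), h0, he⟩).elim
      refine hI fun x hx => ?_
      rw [← Ideal.jacobson_bot, Ideal.mem_jacobson_iff]
      intro y
      obtain ⟨n, hn⟩ := nil _ (I.smul_mem (MulOpposite.op y) hx)
      have : IsNilpotent (y * x) := ⟨n + 1, by
        rw [pow_succ', mul_assoc, ← mul_pow_mul]; simp [show (x * y) ^ n = 0 from hn]⟩
      obtain ⟨u, hu⟩ := this.isUnit_add_one
      exact ⟨↑u⁻¹, by rw [mul_assoc, ← mul_add_one, ← hu]; simp⟩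
    · have : ∀ x : R, IsUnit x → SNC x → IsNilpotent (x - 1) := by
        rintro x hx ⟨e, b, he, hb, c, rfl⟩
        have : IsUnit e := by
          simpa using hb.neg.isUnit_add_left_of_commute hx (by
            show _ * _ = _ * _; rw [mul_add, add_mul, neg_mul, mul_neg, c]; simp)
        rw [this.mul_eq_left.1 he]; simpa
      rcases h x with c | c
      · exact ⟨_, this x hx c, .inl (by simp)⟩
      · exact ⟨_, (this _ hx.neg c).neg, .inr (by simp)⟩
    · rintro ⟨n, hn, rfl | rfl⟩
      exacts [hn.isUnit_add_one, hn.isUnit_sub_one]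
  · rintro ⟨hs, hw⟩ a
    have j1 : ∀ j ∈ Ring.jacobson R, IsNilpotent j ∨ IsNilpotent (j + 2) := fun j hj => by
      obtain ⟨n, hn, e | e⟩ := (hw _).1 (unitJ hj)
      · left; rwa [show j = n by rw [← add_left_cancel_iff (a := 1), e, add_comm]]
      · right; rwa [show j + 2 = n by rw [← sub_add_cancel n 1, ← e, ← one_add_one_eq_two]; abel]
    have id0 : ∀ e ∈ Ring.jacobson R, e * e = e → e = 0 := fun e he h =>
      (unitJ (neg_mem he)).mul_right_eq_zero.1 (by simp [add_mul, h])
    let π := Ideal.Quotient.mk (Ring.jacobson R)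
    have hπ : ∀ x, π x = 0 ↔ x ∈ Ring.jacobson R := fun x => Ideal.Quotient.eq_zero_iff_mem
    have sp : ∀ a : R, π a ≠ 0 → ∃ r, π (a * r) ≠ 0 ∧ a * r * (a * r) = a * r := fun a ha => by
      obtain ⟨e, h1, h2, h3⟩ := hs (Submodule.span _ {a}) fun h =>
        ha ((hπ _).2 (h a (Submodule.mem_span_singleton_self a)))
      obtain ⟨r, rfl⟩ := Submodule.mem_span_singleton.1 h1
      exact ⟨r.unop, fun h => h2 (id0 _ ((hπ _).1 h) h3), h3⟩
    have j2 : ∀ j ∈ Ring.jacobson R, IsNilpotent j := fun j hj => by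
      refine (j1 j hj).elim id fun h => ?_
      have c2 : ∀ x : R, Commute x 2 := fun x => Commute.ofNat_right x 2
      have h2 : (2 : R) ∈ Ring.jacobson R := by
        by_contra h2
        obtain ⟨r, h0, hr⟩ := sp 2 (mt (hπ _).1 h2)
        have := h.map π
        rw [map_add, (hπ _).2 hj, zero_add] at this
        refine h0 (IsIdempotentElem.eq_zero_of_isNilpotent (by
          show _ * _ = _; rw [← map_mul, hr]) ?_)
        rw [map_mul]
        exact ((c2 r).symm.map π).isNilpotent_mul_right this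
      have h3 : IsNilpotent (2 : R) := (j1 2 h2).elim id fun h => by
        rw [← two_mul, ← sq] at h; exact h.of_pow
      simpa using ((c2 j).add_left (c2 2)).isNilpotent_sub h h3
    have := core (R := R ⧸ Ring.jacobson R) (fun a ha => ?_) (fun x y h1 h2 => ?_) (π a)
    · refine this.imp (fun h => snc (j2 _ ((hπ _).1 ?_))) fun h => snc (j2 _ ((hπ _).1 ?_)) <;>
        simpa using h
    · obtain ⟨a, rfl⟩ := Ideal.Quotient.mk_surjective a
      obtain ⟨r, h0, hr⟩ := sp a ha
      exact ⟨π r, h0, congrArg π hr⟩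
    · obtain ⟨x, rfl⟩ := Ideal.Quotient.mk_surjective x
      obtain ⟨y, rfl⟩ := Ideal.Quotient.mk_surjective y
      obtain ⟨u, hu⟩ := unitJ ((hπ (x * y - 1)).1 (by simp [π, h1]))
      obtain ⟨v, hv⟩ := unitJ ((hπ (y * x - 1)).1 (by simp [π, h2]))
      have : IsUnit x := isUnit_iff_exists_and_exists.2
        ⟨⟨y * ↑u⁻¹, by rw [← mul_assoc, Units.mul_inv_eq_one, hu]; simp⟩,
          ⟨↑v⁻¹ * y, by rw [mul_assoc, Units.inv_mul_eq_one, hv]; simp⟩⟩
      obtain ⟨n, hn, rfl | rfl⟩ := (hw x).1 this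
      · left; simpa using hn.map π
      · right; simpa using hn.map π

end Pool.Agent.Results.MP_2093e0_al.Yes
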